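import Pool.Agent.CYG.D.Def
import Pool.Agent.QL.Lift
import Pool.Agent.HHP.Mass

/-!
# CYL, part D5: bounds of the masses of the crossing families

`xE ^ (2 l N) ≤ Zc L l N` (straight lines), `Zc L l N ≤ (Zc L 1 N) ^ l`, `Zc L 1 N ≤ L ^ 2` (lift to the strip, where
the crossing mass is at most `1`), and the consequences for the growth rates.
-/

namespace Pool.Agent.CYL

open Pool.Agent.Hhelper14.SAW Pool.Agent.HHP Pool.Agent.QL Pool.Agent.BEX
open scoped ENNReal
open Filter Topology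

/-- A path can be reversed. -/
theorem CP_rev {L M : ℕ} {u v : CV L} {l : List (CV L)} (h : QL.CP M u v l) : QL.CP M v u l.reverse := by
  obtain ⟨h1, h2, h3, h4, h5⟩ := h
  refine ⟨List.nodup_reverse.2 h1, ?_, fun z hz => h3 z (List.mem_reverse.1 hz), ?_, ?_⟩
  · rw [List.isChain_reverse]
    exact h2.imp fun _ _ h => h.symm
  · rw [List.head?_reverse, h5]
  · rw [List.getLast?_reverse, h4]

/-- The straight line over the site `c`, from the bottom of the cylinder of `N` rows to the top. -/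
def sline {L : ℕ} (c : Fin L) : ℕ → List (CV L)
  | 0 => []
  | N + 1 => ((N : ℤ), c, false) :: ((N : ℤ), c, true) :: sline c N

theorem sline_length {L : ℕ} (c : Fin L) (N : ℕ) : (sline c N).length = 2 * N := by
  induction N with
  | zero => rfl
  | succ n ih => simp only [sline, List.length_cons, ih]; ring

theorem sline_mem {L : ℕ} {c : Fin L} {N : ℕ} {z : CV L} (h : z ∈ sline c N) :
    0 ≤ z.1 ∧ z.1 < N ∧ z.2.1 = c := by
  induction N with
  | zero => simp [sline] at h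
  | succ n ih =>
    simp only [sline, List.mem_cons] at h
    rcases h with rfl | rfl | h
    · refine ⟨by simp, by push_cast; simp, rfl⟩
    · refine ⟨by simp, by push_cast; simp, rfl⟩
    · obtain ⟨h1, h2, h3⟩ := ih h
      exact ⟨h1, by push_cast; omega, h3⟩

theorem sline_CP {L : ℕ} (c : Fin L) {N : ℕ} (hN : 1 ≤ N) : QL.CP N (ub N c) (ut c) (sline c N) := by
  refine ⟨?_, ?_, fun z hz => ⟨(sline_mem hz).1, (sline_mem hz).2.1⟩, ?_, ?_⟩
  · clear hN
    induction N with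
    | zero => simp [sline]
    | succ n ih =>
      simp only [sline, List.nodup_cons, List.mem_cons, not_or]
      refine ⟨⟨by simp, fun h => ?_⟩, fun h => ?_, ih⟩
      · have := (sline_mem h).2.1; simp at this
      · have := (sline_mem h).2.1; simp at this
  · clear hN
    induction N with
    | zero => simp [sline]
    | succ n ih =>
      simp only [sline]
      rw [List.isChain_cons_cons]
      refine ⟨Or.inr ⟨rfl, rfl, Or.inl ⟨rfl, rfl⟩⟩, ?_⟩
      cases n with
      | zero => simp [sline]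
      | succ m =>
        simp only [sline] at ih ⊢
        rw [List.isChain_cons_cons]
        refine ⟨Or.inl ⟨rfl, rfl, Or.inr (Or.inr ⟨?_, rfl⟩)⟩, ih⟩
        push_cast; ring
  · obtain ⟨n, rfl⟩ : ∃ n, N = n + 1 := ⟨N - 1, by omega⟩
    simp only [sline, List.head?_cons, ub]
    push_cast
    simp
  · obtain ⟨n, rfl⟩ : ∃ n, N = n + 1 := ⟨N - 1, by omega⟩
    clear hN
    induction n with
    | zero => simp [sline, ut]
    | succ m ih =>
      have e : sline c (m + 1 + 1) =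
          (((m + 1 : ℕ) : ℤ), c, false) :: (((m + 1 : ℕ) : ℤ), c, true) :: sline c (m + 1) := rfl
      have h2 : sline c (m + 1) ≠ [] := by simp [sline]
      rw [e, List.getLast?_cons_cons, List.getLast?_cons_of_ne_nil h2, ih]

/-- The straight lines over fixed sites. -/
theorem fm_line {L l N : ℕ} {c : Fin l → Fin L} (hc : Function.Injective c) (hN : 1 ≤ N) :
    xE ^ (2 * l * N) ≤ fm N c c := by
  have hF : Fam N c c (fun k => sline (c k) N) := by
    refine ⟨fun k => sline_CP _ hN, fun k k' hk => ?_⟩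
    intro z hz hz'
    exact hk (hc ((sline_mem hz).2.2.symm.trans (sline_mem hz').2.2))
  have := ENNReal.le_tsum (f := fun g : {g : Fin l → List (CV L) // Fam N c c g} =>
    xE ^ (∑ k, (g.1 k).length)) ⟨_, hF⟩
  refine le_trans (le_of_eq ?_) this
  simp only [sline_length, Finset.sum_const, Finset.card_univ, Fintype.card_fin, smul_eq_mul]
  congr 1; ring

/-- No family if two paths start at the same vertex. -/
theorem fm_zero_left {L l N : ℕ} {c e : Fin l → Fin L} (hc : ¬ Function.Injective c) : fm N c e = 0 := by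
  simp only [Function.Injective, not_forall] at hc
  obtain ⟨k, k', h1, h2⟩ := hc
  unfold fm
  rw [ENNReal.tsum_eq_zero]
  rintro ⟨g, hg⟩
  exfalso
  have a1 := List.mem_of_mem_head? (hg.1 k).2.2.2.1
  have a2 := List.mem_of_mem_head? (hg.1 k').2.2.2.1
  rw [← h1] at a2
  exact hg.2 k k' h2 a1 a2

/-- No family if two paths end at the same vertex. -/
theorem fm_zero_right {L l N : ℕ} {c e : Fin l → Fin L} (he : ¬ Function.Injective e) : fm N c e = 0 := by
  simp only [Function.Injective, not_forall] at he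
  obtain ⟨k, k', h1, h2⟩ := he
  unfold fm
  rw [ENNReal.tsum_eq_zero]
  rintro ⟨g, hg⟩
  exfalso
  have a1 := List.mem_of_getLast? (hg.1 k).2.2.2.2
  have a2 := List.mem_of_getLast? (hg.1 k').2.2.2.2
  rw [← h1] at a2
  exact hg.2 k k' h2 a1 a2

theorem Zc_eq (L l N : ℕ) : Zc L l N = ∑ c : Fin l → Fin L, ∑ e : Fin l → Fin L, fm N c e := by
  classical
  unfold Zc
  refine Finset.sum_congr rfl fun c _ => Finset.sum_congr rfl fun e _ => ?_
  by_cases hc : Function.Injective c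
  · by_cases he : Function.Injective e
    · rw [if_pos ⟨hc, he⟩]
    · rw [if_neg fun h => he h.2, fm_zero_right he]
  · rw [if_neg fun h => hc h.1, fm_zero_left hc]

/-- Fixed starting points: all ends. -/
theorem sum_fm_le {L l N : ℕ} (c : Fin l → Fin L) : ∑ e : Fin l → Fin L, fm N c e ≤ Zc L l N := by
  rw [Zc_eq]
  exact Finset.single_le_sum (f := fun c : Fin l → Fin L => ∑ e : Fin l → Fin L, fm N c e)
    (fun _ _ => zero_le) (Finset.mem_univ c)

theorem sum_fm_lower {L l N : ℕ} {c : Fin l → Fin L} (hc : Function.Injective c) (hN : 1 ≤ N) :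
    xE ^ (2 * l * N) ≤ ∑ e : Fin l → Fin L, fm N c e :=
  (fm_line hc hN).trans (Finset.single_le_sum (f := fun e : Fin l → Fin L => fm N c e)
    (fun _ _ => zero_le) (Finset.mem_univ c))

/-- The straight lines. -/
theorem Zc_lower {L l N : ℕ} (hl : l ≤ L) (hN : 1 ≤ N) : xE ^ (2 * l * N) ≤ Zc L l N :=
  (sum_fm_lower (Fin.castLE_injective hl) hN).trans (sum_fm_le _)

/-- One path. -/
theorem fm_one {L N : ℕ} (c e : Fin 1 → Fin L) : fm N c e = QL.cm N (ub N (c 0)) (ut (e 0)) := by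
  unfold fm QL.cm
  refine le_antisymm (tsum_rel _ _ (fun g l => l.1 = g.1 0) ?_ ?_) (tsum_rel _ _ (fun l g => l.1 = g.1 0) ?_ ?_)
  · rintro ⟨g, hg⟩
    exact ⟨⟨g 0, hg.1 0⟩, rfl, by simp⟩
  · rintro ⟨g, hg⟩ ⟨g', hg'⟩ ⟨l, hl⟩ h1 h2
    refine Subtype.ext (funext fun k => ?_)
    rw [Subsingleton.elim k 0]
    exact h1.symm.trans h2
  · rintro ⟨l, hl⟩
    refine ⟨⟨fun _ => l, fun k => ?_, fun k k' h => absurd (Subsingleton.elim k k') h⟩, rfl, by simp⟩
    rw [Subsingleton.elim k 0]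
    exact hl
  · rintro ⟨l, hl⟩ ⟨l', hl'⟩ ⟨g, hg⟩ h1 h2
    exact Subtype.ext (h1.trans h2.symm)

theorem Zc_one {L N : ℕ} : Zc L 1 N = ∑ a : Fin L, ∑ b : Fin L, QL.cm N (ub N a) (ut b) := by
  classical
  unfold Zc
  have e : ∀ f : (Fin 1 → Fin L) → ℝ≥0∞, ∑ c, f c = ∑ a : Fin L, f (fun _ => a) := by
    intro f
    exact Fintype.sum_equiv (Equiv.funUnique (Fin 1) (Fin L)) _ _ (fun c => by
      congr 1; funext k; rw [Subsingleton.elim k default]; rfl)
  rw [e]
  refine Finset.sum_congr rfl fun a _ => ?_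
  rw [e]
  refine Finset.sum_congr rfl fun b _ => ?_
  rw [if_pos ⟨Function.injective_of_subsingleton _, Function.injective_of_subsingleton _⟩, fm_one]

/-- Two disjoint paths against two independent paths. -/
theorem fm_two_le {L N : ℕ} (c e : Fin 2 → Fin L) :
    fm N c e ≤ QL.cm N (ub N (c 0)) (ut (e 0)) * QL.cm N (ub N (c 1)) (ut (e 1)) := by
  have h1 : QL.cm N (ub N (c 0)) (ut (e 0)) * QL.cm N (ub N (c 1)) (ut (e 1)) =
      ∑' p : {l : List (CV L) // QL.CP N (ub N (c 0)) (ut (e 0)) l} ×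
        {l : List (CV L) // QL.CP N (ub N (c 1)) (ut (e 1)) l}, xE ^ p.1.1.length * xE ^ p.2.1.length := by
    unfold QL.cm
    rw [ENNReal.tsum_prod (f := fun (a : {l : List (CV L) // QL.CP N (ub N (c 0)) (ut (e 0)) l})
      (b : {l : List (CV L) // QL.CP N (ub N (c 1)) (ut (e 1)) l}) => xE ^ a.1.length * xE ^ b.1.length)]
    simp_rw [ENNReal.tsum_mul_left]
    rw [ENNReal.tsum_mul_right]
  rw [h1]
  unfold fm
  refine tsum_rel _ _ (fun g p => p.1.1 = g.1 0 ∧ p.2.1 = g.1 1) ?_ ?_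
  · rintro ⟨g, hg⟩
    refine ⟨(⟨g 0, hg.1 0⟩, ⟨g 1, hg.1 1⟩), ⟨rfl, rfl⟩, ?_⟩
    simp only [Fin.sum_univ_two, pow_add, le_refl]
  · rintro ⟨g, hg⟩ ⟨g', hg'⟩ ⟨⟨l, hl⟩, ⟨l', hl'⟩⟩ ⟨h1, h2⟩ ⟨h3, h4⟩
    refine Subtype.ext (funext fun k => ?_)
    fin_cases k
    · exact h1.symm.trans h3
    · exact h2.symm.trans h4

theorem Zc_two_le {L N : ℕ} : Zc L 2 N ≤ Zc L 1 N ^ 2 := by
  classical
  have e : ∀ f : (Fin 2 → Fin L) → ℝ≥0∞, ∑ c, f c = ∑ p : Fin L × Fin L, f ![p.1, p.2] := by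
    intro f
    exact Fintype.sum_equiv (finTwoArrowEquiv (Fin L)) _ _ (fun c => by
      congr 1; funext k; fin_cases k <;> rfl)
  have h1 : Zc L 2 N ≤ ∑ p : Fin L × Fin L, ∑ q : Fin L × Fin L,
      QL.cm N (ub N p.1) (ut q.1) * QL.cm N (ub N p.2) (ut q.2) := by
    unfold Zc
    rw [e]
    refine Finset.sum_le_sum fun p _ => ?_
    rw [e]
    refine Finset.sum_le_sum fun q _ => ?_
    split_ifs
    · exact fm_two_le _ _
    · exact zero_le
  refine h1.trans (le_of_eq ?_)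
  rw [Zc_one, sq, Finset.sum_mul_sum, Fintype.sum_prod_type]
  refine Finset.sum_congr rfl fun a _ => Finset.sum_congr rfl fun a' _ => ?_
  rw [Finset.sum_mul_sum, Fintype.sum_prod_type]

/-- The first path against the other paths. -/
theorem fm_succ_le {L l N : ℕ} (c e : Fin (l + 1) → Fin L) :
    fm N c e ≤ QL.cm N (ub N (c 0)) (ut (e 0)) * fm N (Fin.tail c) (Fin.tail e) := by
  have h1 : QL.cm N (ub N (c 0)) (ut (e 0)) * fm N (Fin.tail c) (Fin.tail e) =
      ∑' p : {l : List (CV L) // QL.CP N (ub N (c 0)) (ut (e 0)) l} ×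
        {g : Fin l → List (CV L) // Fam N (Fin.tail c) (Fin.tail e) g},
        xE ^ p.1.1.length * xE ^ (∑ k, (p.2.1 k).length) := by
    unfold QL.cm fm
    rw [ENNReal.tsum_prod (f := fun (a : {l : List (CV L) // QL.CP N (ub N (c 0)) (ut (e 0)) l})
      (b : {g : Fin l → List (CV L) // Fam N (Fin.tail c) (Fin.tail e) g}) =>
      xE ^ a.1.length * xE ^ (∑ k, (b.1 k).length))]
    simp_rw [ENNReal.tsum_mul_left]
    rw [ENNReal.tsum_mul_right]
  rw [h1]
  unfold fm
  refine tsum_rel _ _ (fun g p => p.1.1 = g.1 0 ∧ p.2.1 = Fin.tail g.1) ?_ ?_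
  · rintro ⟨g, hg⟩
    refine ⟨(⟨g 0, hg.1 0⟩, ⟨Fin.tail g, fun k => hg.1 k.succ, fun k k' hk =>
      hg.2 _ _ fun h => hk (Fin.succ_injective _ h)⟩), ⟨rfl, rfl⟩, ?_⟩
    simp only [Fin.sum_univ_succ, pow_add, le_refl, Fin.tail]
  · rintro ⟨g, hg⟩ ⟨g', hg'⟩ ⟨⟨l, hl⟩, ⟨l', hl'⟩⟩ ⟨h1, h2⟩ ⟨h3, h4⟩
    refine Subtype.ext (funext fun k => ?_)
    refine Fin.cases ?_ (fun j => ?_) k
    · exact h1.symm.trans h3
    · exact congrFun (h2.symm.trans h4) j

/-- Disjoint paths against independent paths. -/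
theorem fm_le_prod {L N : ℕ} : ∀ {l : ℕ} (c e : Fin l → Fin L),
    fm N c e ≤ ∏ k, QL.cm N (ub N (c k)) (ut (e k))
  | 0, c, e => by
    have h : Fam N c e (fun _ => []) := ⟨fun k => k.elim0, fun k => k.elim0⟩
    have : Unique {g : Fin 0 → List (CV L) // Fam N c e g} :=
      { default := ⟨fun _ => [], h⟩, uniq := fun g => Subtype.ext (Subsingleton.elim _ _) }
    unfold fm
    rw [tsum_fintype]
    simp
  | l + 1, c, e => by
    rw [Fin.prod_univ_succ]
    refine (fm_succ_le c e).trans ?_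
    gcongr
    exact fm_le_prod (Fin.tail c) (Fin.tail e)

/-- `l` disjoint paths against `l` independent paths. -/
theorem Zc_le_pow (L l N : ℕ) : Zc L l N ≤ Zc L 1 N ^ l := by
  classical
  have h1 : Zc L l N ≤ ∑ c : Fin l → Fin L, ∑ e : Fin l → Fin L,
      ∏ k, QL.cm N (ub N (c k)) (ut (e k)) := by
    rw [Zc_eq]
    exact Finset.sum_le_sum fun c _ => Finset.sum_le_sum fun e _ => fm_le_prod c e
  refine h1.trans (le_of_eq ?_)
  have h2 : ∀ c : Fin l → Fin L, ∑ e : Fin l → Fin L, ∏ k, QL.cm N (ub N (c k)) (ut (e k)) =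
      ∏ k, ∑ b : Fin L, QL.cm N (ub N (c k)) (ut b) := by
    intro c
    rw [Finset.prod_univ_sum, Fintype.piFinset_univ]
  simp_rw [h2]
  rw [Zc_one]
  have h3 := Finset.prod_univ_sum (fun _ : Fin l => (Finset.univ : Finset (Fin L)))
    (fun (_ : Fin l) (a : Fin L) => ∑ b : Fin L, QL.cm N (ub N a) (ut b))
  rw [Fintype.piFinset_univ] at h3
  rw [← h3, Finset.prod_const, Finset.card_univ, Fintype.card_fin]

/-- The mass of the crossing paths of the cylinder with fixed ends is at most `1`. -/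
theorem cm_cross_le {L : ℕ} (N : ℕ) (c e : Fin L) : QL.cm N (ub N c) (ut e) ≤ 1 := by
  rcases Nat.eq_zero_or_pos N with rfl | hN
  · have h : ∀ l : List (CV L), ¬ QL.CP 0 (ub 0 c) (ut e) l := by
      rintro l ⟨h1, h2, h3, h4, h5⟩
      have := h3 _ (List.mem_of_mem_head? h4)
      have h6 := this.1
      have h7 := this.2
      push_cast at h7
      omega
    unfold QL.cm
    have h0 : (∑' l : {l : List (CV L) // QL.CP 0 (ub 0 c) (ut e) l}, xE ^ l.1.length) = 0 := by
      rw [ENNReal.tsum_eq_zero]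
      rintro ⟨l, hl⟩
      exact absurd hl (h l)
    rw [h0]
    exact zero_le
  refine le_trans ?_ (Br_one (N - 1))
  unfold QL.cm ms
  refine tsum_rel _ _ (fun l W => (V W.1).map (pr e) = l.1.reverse) ?_ ?_
  · rintro ⟨l, hl⟩
    have hr := CP_rev hl
    obtain ⟨W, hW⟩ := lift_ex N e _ _ hr
    obtain ⟨h1, h2, h3, h4, h5⟩ := hr
    have hn : ((V W).map (pr e)).Nodup := by rw [hW]; exact h1
    have h6 : pr e (E W) = ub N c := by
      have := congrArg List.getLast? hW
      rw [h5, List.getLast?_map, V, vs_getLast?, Option.map_some, Option.some.injEq] at this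
      exact this
    have h7 : ∀ z ∈ V W, 0 ≤ F0 z ∧ F0 z ≤ 3 * ((N - 1 : ℕ) : ℤ) + 1 := by
      intro z hz
      have g1 := h3 (pr e z) (by rw [← hW]; exact List.mem_map_of_mem hz)
      have g2 := res_std hz
      simp only [pr] at g1
      have g3 : ((N - 1 : ℕ) : ℤ) = (N : ℤ) - 1 := by omega
      rw [g3]
      omega
    have h8 : F0 (E W) = 3 * ((N - 1 : ℕ) : ℤ) + 1 := by
      have g2 := res_std (E_mem W)
      simp only [pr, ub, Prod.mk.injEq, decide_eq_false_iff_not] at h6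
      have g3 : ((N - 1 : ℕ) : ℤ) = (N : ℤ) - 1 := by omega
      rw [g3]
      omega
    refine ⟨⟨W, ⟨List.Nodup.of_map _ hn, h7⟩, h8⟩, hW, ?_⟩
    have : l.length = W.length + 1 := by
      rw [← List.length_reverse, ← hW, List.length_map, V, vs_length]
    simp only
    rw [this]
  · rintro ⟨l, hl⟩ ⟨l', hl'⟩ ⟨W, hW⟩ h1 h2
    exact Subtype.ext (List.reverse_injective (h1.symm.trans h2))

/-- Bounded in `N`. -/
theorem Zc_one_le (L N : ℕ) : Zc L 1 N ≤ (L : ℝ≥0∞) ^ 2 := by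
  rw [Zc_one]
  calc ∑ a : Fin L, ∑ b : Fin L, QL.cm N (ub N a) (ut b) ≤ ∑ _a : Fin L, ∑ _b : Fin L, (1 : ℝ≥0∞) :=
        Finset.sum_le_sum fun a _ => Finset.sum_le_sum fun b _ => cm_cross_le N a b
    _ = (L : ℝ≥0∞) ^ 2 := by simp [sq]

theorem Zc_one_ne_top (L N : ℕ) : Zc L 1 N ≠ ∞ :=
  ne_top_of_le_ne_top (by simp) (Zc_one_le L N)

theorem Zc_two_ne_top (L N : ℕ) : Zc L 2 N ≠ ∞ :=
  ne_top_of_le_ne_top (ENNReal.pow_ne_top (Zc_one_ne_top L N)) Zc_two_le

/-- Finite, for every number of paths. -/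
theorem Zc_fin (L l N : ℕ) : Zc L l N ≠ ∞ :=
  ne_top_of_le_ne_top (ENNReal.pow_ne_top (Zc_one_ne_top L N)) (Zc_le_pow L l N)

theorem sum_fm_fin {L l : ℕ} (N : ℕ) (c : Fin l → Fin L) :
    ∑ e : Fin l → Fin L, fm N c e ≠ ∞ := ne_top_of_le_ne_top (Zc_fin L l N) (sum_fm_le c)

theorem fm_fin {L l : ℕ} (N : ℕ) (c e : Fin l → Fin L) : fm N c e ≠ ∞ :=
  ne_top_of_le_ne_top (sum_fm_fin N c)
    (Finset.single_le_sum (f := fun e : Fin l → Fin L => fm N c e) (fun _ _ => zero_le) (Finset.mem_univ e))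

/-! ### Real forms and growth rates -/

theorem Zc_real_lower {L l N : ℕ} (hl : l ≤ L) (hN : 1 ≤ N) (hf : Zc L l N ≠ ∞) :
    xc ^ (2 * l * N) ≤ (Zc L l N).toReal := by
  have h1 := ENNReal.toReal_mono hf (Zc_lower hl hN)
  rw [ENNReal.toReal_pow] at h1
  unfold xE at h1
  rwa [ENNReal.toReal_ofReal xc_pos.le] at h1

theorem Zc_real_one_le (L N : ℕ) : (Zc L 1 N).toReal ≤ (L : ℝ) ^ 2 := by
  have h1 := ENNReal.toReal_mono (by simp) (Zc_one_le L N)
  simpa using h1

theorem Zc_real_two_le (L N : ℕ) : (Zc L 2 N).toReal ≤ (Zc L 1 N).toReal ^ 2 := by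
  have h1 := ENNReal.toReal_mono (ENNReal.pow_ne_top (Zc_one_ne_top L N)) (Zc_two_le (L := L) (N := N))
  rwa [ENNReal.toReal_pow] at h1

private lemma ne_top_le_two {L l N : ℕ} (h : l = 1 ∨ l = 2) : Zc L l N ≠ ∞ := by
  rcases h with rfl | rfl
  · exact Zc_one_ne_top L N
  · exact Zc_two_ne_top L N

theorem Zc_ne_top {L l : ℕ} (h : l = 1 ∨ l = 2) (N : ℕ) : Zc L l N ≠ ∞ := ne_top_le_two h

theorem Zc_real_pos {L l N : ℕ} (h : l = 1 ∨ l = 2) (hl : l ≤ L) (hN : 1 ≤ N) : 0 < (Zc L l N).toReal :=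
  lt_of_lt_of_le (pow_pos xc_pos _) (Zc_real_lower hl hN (Zc_ne_top h N))

theorem sum_fm_ne_top {L l : ℕ} (h : l = 1 ∨ l = 2) (N : ℕ) (c : Fin l → Fin L) :
    ∑ e : Fin l → Fin L, fm N c e ≠ ∞ := ne_top_of_le_ne_top (Zc_ne_top h N) (sum_fm_le c)

theorem fm_ne_top {L l : ℕ} (h : l = 1 ∨ l = 2) (N : ℕ) (c e : Fin l → Fin L) : fm N c e ≠ ∞ :=
  ne_top_of_le_ne_top (sum_fm_ne_top h N c)
    (Finset.single_le_sum (f := fun e : Fin l → Fin L => fm N c e) (fun _ _ => zero_le) (Finset.mem_univ e))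

theorem sum_fm_real_lower {L l N : ℕ} (h : l = 1 ∨ l = 2) {c : Fin l → Fin L} (hc : Function.Injective c)
    (hN : 1 ≤ N) : xc ^ (2 * l * N) ≤ (∑ e : Fin l → Fin L, fm N c e).toReal := by
  have h1 := ENNReal.toReal_mono (sum_fm_ne_top h N c) (sum_fm_lower hc hN)
  rw [ENNReal.toReal_pow] at h1
  unfold xE at h1
  rwa [ENNReal.toReal_ofReal xc_pos.le] at h1

theorem sum_fm_real_pos {L l N : ℕ} (h : l = 1 ∨ l = 2) {c : Fin l → Fin L} (hc : Function.Injective c)
    (hN : 1 ≤ N) : 0 < (∑ e : Fin l → Fin L, fm N c e).toReal :=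
  lt_of_lt_of_le (pow_pos xc_pos _) (sum_fm_real_lower h hc hN)

/-- The number of the paths is arbitrary. -/
theorem Zc_real_pos' {L l N : ℕ} (hl : l ≤ L) (hN : 1 ≤ N) : 0 < (Zc L l N).toReal :=
  lt_of_lt_of_le (pow_pos xc_pos _) (Zc_real_lower hl hN (Zc_fin L l N))

theorem sum_fm_real_lower' {L l N : ℕ} {c : Fin l → Fin L} (hc : Function.Injective c)
    (hN : 1 ≤ N) : xc ^ (2 * l * N) ≤ (∑ e : Fin l → Fin L, fm N c e).toReal := by
  have h1 := ENNReal.toReal_mono (sum_fm_fin N c) (sum_fm_lower hc hN)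
  rw [ENNReal.toReal_pow] at h1
  unfold xE at h1
  rwa [ENNReal.toReal_ofReal xc_pos.le] at h1

theorem sum_fm_real_pos' {L l N : ℕ} {c : Fin l → Fin L} (hc : Function.Injective c)
    (hN : 1 ≤ N) : 0 < (∑ e : Fin l → Fin L, fm N c e).toReal :=
  lt_of_lt_of_le (pow_pos xc_pos _) (sum_fm_real_lower' hc hN)

theorem Zc_real_le_pow (L l N : ℕ) : (Zc L l N).toReal ≤ (Zc L 1 N).toReal ^ l := by
  have h1 := ENNReal.toReal_mono (ENNReal.pow_ne_top (Zc_one_ne_top L N)) (Zc_le_pow L l N)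
  rwa [ENNReal.toReal_pow] at h1

/-- Bounded in `N`. -/
theorem Zc_real_le (L l N : ℕ) : (Zc L l N).toReal ≤ ((L : ℝ) ^ 2) ^ l :=
  (Zc_real_le_pow L l N).trans (pow_le_pow_left₀ ENNReal.toReal_nonneg (Zc_real_one_le L N) l)

/-- The growth rate is at least that of the straight lines, every number of paths. -/
theorem rate_lower' {L l : ℕ} (hl : l ≤ L) {a : ℝ}
    (h : Tendsto (fun N : ℕ => Real.log (Zc L l N).toReal / N) atTop (𝓝 a)) : 2 * l * Real.log xc ≤ a := by
  refine ge_of_tendsto h ?_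
  filter_upwards [eventually_ge_atTop 1] with N hN
  have h1 := Zc_real_lower hl hN (Zc_fin L l N)
  have h2 : (2 * l * N : ℕ) * Real.log xc ≤ Real.log (Zc L l N).toReal := by
    rw [← Real.log_pow]
    exact Real.log_le_log (pow_pos xc_pos _) h1
  have hN' : (0 : ℝ) < N := by exact_mod_cast hN
  rw [le_div_iff₀ hN']
  push_cast at h2
  linarith

/-- The growth rate is at most `0`, every number of paths. -/
theorem rate_upper' {L l : ℕ} {a : ℝ}
    (h : Tendsto (fun N : ℕ => Real.log (Zc L l N).toReal / N) atTop (𝓝 a)) : a ≤ 0 := by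
  have h0 : Tendsto (fun N : ℕ => Real.log (((L : ℝ) ^ 2) ^ l + 1) / N) atTop (𝓝 0) :=
    tendsto_const_div_atTop_nhds_zero_nat _
  refine le_of_tendsto_of_tendsto h h0 ?_
  filter_upwards [eventually_ge_atTop 1] with N hN
  have hN' : (0 : ℝ) < N := by exact_mod_cast hN
  refine div_le_div_of_nonneg_right ?_ hN'.le
  have h1 := Zc_real_le L l N
  have hp : (0 : ℝ) ≤ ((L : ℝ) ^ 2) ^ l := by positivity
  rcases (ENNReal.toReal_nonneg (a := Zc L l N)).eq_or_lt with h2 | h2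
  · rw [← h2, Real.log_zero]
    exact Real.log_nonneg (by linarith)
  · exact Real.log_le_log h2 (by linarith)

/-- `l` disjoint paths cost at least as much as `l` independent ones. -/
theorem rate_pow_upper {L l : ℕ} (hlL : l ≤ L) {a b : ℝ}
    (h1 : Tendsto (fun N : ℕ => Real.log (Zc L 1 N).toReal / N) atTop (𝓝 a))
    (h2 : Tendsto (fun N : ℕ => Real.log (Zc L l N).toReal / N) atTop (𝓝 b)) : b ≤ l * a := by
  refine le_of_tendsto_of_tendsto h2 (h1.const_mul (l : ℝ)) ?_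
  filter_upwards [eventually_ge_atTop 1] with N hN
  have hN' : (0 : ℝ) < N := by exact_mod_cast hN
  have g1 : 0 < (Zc L l N).toReal := Zc_real_pos' hlL hN
  have g2 := Real.log_le_log g1 (Zc_real_le_pow L l N)
  rw [Real.log_pow] at g2
  have e : (l : ℝ) * (Real.log (Zc L 1 N).toReal / N) = ((l : ℝ) * Real.log (Zc L 1 N).toReal) / N := by ring
  rw [e]
  exact div_le_div_of_nonneg_right g2 hN'.le

/-- The growth rate is at least that of the straight lines. -/
theorem rate_lower {L l : ℕ} (h12 : l = 1 ∨ l = 2) (hl : l ≤ L) {a : ℝ}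
    (h : Tendsto (fun N : ℕ => Real.log (Zc L l N).toReal / N) atTop (𝓝 a)) : 2 * l * Real.log xc ≤ a := by
  refine ge_of_tendsto h ?_
  filter_upwards [eventually_ge_atTop 1] with N hN
  have h1 := Zc_real_lower hl hN (ne_top_le_two h12)
  have h2 : (2 * l * N : ℕ) * Real.log xc ≤ Real.log (Zc L l N).toReal := by
    rw [← Real.log_pow]
    exact Real.log_le_log (pow_pos xc_pos _) h1
  have hN' : (0 : ℝ) < N := by exact_mod_cast hN
  rw [le_div_iff₀ hN']
  push_cast at h2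
  linarith

/-- The growth rate for one path is at most `0`. -/
theorem rate_one_upper {L : ℕ} {a : ℝ}
    (h : Tendsto (fun N : ℕ => Real.log (Zc L 1 N).toReal / N) atTop (𝓝 a)) : a ≤ 0 := by
  have h0 : Tendsto (fun N : ℕ => Real.log ((L : ℝ) ^ 2 + 1) / N) atTop (𝓝 0) :=
    tendsto_const_div_atTop_nhds_zero_nat _
  refine le_of_tendsto_of_tendsto h h0 ?_
  filter_upwards [eventually_ge_atTop 1] with N hN
  have hN' : (0 : ℝ) < N := by exact_mod_cast hN
  refine div_le_div_of_nonneg_right ?_ hN'.le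
  have h1 := Zc_real_one_le L N
  rcases (ENNReal.toReal_nonneg (a := Zc L 1 N)).eq_or_lt with h2 | h2
  · rw [← h2, Real.log_zero]
    exact Real.log_nonneg (by nlinarith [sq_nonneg (L : ℝ)])
  · exact Real.log_le_log h2 (by linarith)

/-- Two disjoint paths cost at least as much as two independent ones. -/
theorem rate_two_upper {L : ℕ} (hL : 2 ≤ L) {a b : ℝ}
    (h1 : Tendsto (fun N : ℕ => Real.log (Zc L 1 N).toReal / N) atTop (𝓝 a))
    (h2 : Tendsto (fun N : ℕ => Real.log (Zc L 2 N).toReal / N) atTop (𝓝 b)) : b ≤ 2 * a := by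
  refine le_of_tendsto_of_tendsto h2 (h1.const_mul 2) ?_
  filter_upwards [eventually_ge_atTop 1] with N hN
  have hN' : (0 : ℝ) < N := by exact_mod_cast hN
  have g1 : 0 < (Zc L 2 N).toReal :=
    lt_of_lt_of_le (pow_pos xc_pos _) (Zc_real_lower hL hN (Zc_two_ne_top L N))
  have g2 := Real.log_le_log g1 (Zc_real_two_le L N)
  rw [Real.log_pow] at g2
  push_cast at g2
  have e : 2 * (Real.log (Zc L 1 N).toReal / N) = (2 * Real.log (Zc L 1 N).toReal) / N := by ring
  rw [e]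
  exact div_le_div_of_nonneg_right g2 hN'.le

end Pool.Agent.CYL
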